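import Mathlib
import Pool.Agent.W534.FS9

/-!
# Semisimplicity of Frobenius on `H²` of surfaces with `p_g = 1` and finite height

Let `X` be a smooth projective surface over `F_q`, `q = p ^ a`, with `p_g = 1` whose formal Brauer
group has finite height `h`. An eigenvalue of the Frobenius on `H²(X̄, Q̄_ℓ)` is a Tate eigenvalue if
it is `q` times a root of unity.
-/

open Polynomial Module W534.FS

namespace Pool.Agent.Results.MP_1fe969_ag.FiniteHeight

theorem result {p a : ℕ} (hp : p.Prime) (ha : 0 < a) {K V : Type*} [Field K] [CharZero K]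
    [IsAlgClosed K] [AddCommGroup V] [Module K V] [Module.Finite K V] (S : SurfaceH2 p a K V)
    {h : ℕ} (hH : S.Height h) :
    -- (1) the multiplicities of pairwise non-conjugate eigenvalues which are not Tate eigenvalues
    -- add up to at most `gcd (a, h)`
    (∀ Z : Finset K, (∀ z ∈ Z, S.F.HasEigenvalue z ∧ ¬ IsTate p a z) →
      (∀ z ∈ Z, ∀ z' ∈ Z, minpoly ℤ z = minpoly ℤ z' → z = z') →
      ∑ z ∈ Z, S.mult z ≤ Nat.gcd a h) ∧
    -- (2) `gcd (a, h) = 1`: simple eigenvalues
    (Nat.gcd a h = 1 → ∀ α, ¬ IsTate p a α → S.mult α ≤ 1 ∧ S.SemisimpleAt α) ∧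
    -- (3) hence semisimplicity, if the defect at the Tate eigenvalues is small
    (Nat.gcd a h = 1 → (S.FewTate ∨ S.SmallDefect) → S.Semisimple) ∧
    -- (4) or if `b₂ ≤ ρ(X̄) + 4`
    (Nat.gcd a h = 1 → finrank K V ≤ finrank K S.N + 4 →
      (∃ α, S.F.HasEigenvalue α ∧ ¬ IsTate p a α) → S.Semisimple) := by
  classical
  have h1 : ∀ Z : Finset K, (∀ z ∈ Z, S.F.HasEigenvalue z ∧ ¬ IsTate p a z) →
      (∀ z ∈ Z, ∀ z' ∈ Z, minpoly ℤ z = minpoly ℤ z' → z = z') →
      ∑ z ∈ Z, S.mult z ≤ Nat.gcd a h := fun Z hZ hd => S.sum_mult_height hp ha hH Z hZ hd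
  have h2 : Nat.gcd a h = 1 → ∀ α, ¬ IsTate p a α → S.mult α ≤ 1 := by
    intro hg α hα
    by_cases h0 : S.mult α = 0
    · omega
    have he := S.eigenvalue_of_mult (α := α) (by omega)
    have := h1 {α} (by simp [he, hα]) (by simp)
    rw [Finset.sum_singleton] at this
    omega
  have hall : (S.FewTate ∨ S.SmallDefect) → (∀ α, ¬ IsTate p a α → S.mult α ≤ 1) →
      S.Semisimple := by
    intro hF hm α
    by_cases hα : IsTate p a α
    · rcases hF with hF | hF
      · exact S.ss_tate hp hF hα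
      · rcases hF α hα with h | ⟨h, h'⟩
        · exact S.ss_local hp hα h
        · exact S.ss_local_two hp h h'
    · exact S.ss_of_mult (hm α hα)
  refine ⟨h1, fun hg α hα => ⟨h2 hg α hα, S.ss_of_mult (h2 hg α hα)⟩,
    fun hg hF => hall hF (h2 hg), ?_⟩
  rintro hg hb ⟨α, he, hα⟩
  apply hall (Or.inl _) (h2 hg)
  intro m hm
  have := S.dim_le he hα hm
  have := S.mult_pos he
  omega

end Pool.Agent.Results.MP_1fe969_ag.FiniteHeight
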