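import Mathlib
import Pool.Agent.W534.FS4

/-!
# Semisimplicity of Frobenius on `H²` of surfaces: multiplicities and the Néron–Severi defect

Let `X` be a smooth projective surface over `F_q`, `q = p ^ a`. An eigenvalue of the Frobenius on
`H²(X̄, Q̄_ℓ)` is called a Tate eigenvalue if it is `q` times a root of unity.
-/

open Polynomial Module W534.FS

namespace Pool.Agent.Results.MP_1fe969_ag.NewtonHodgeSemisimple

theorem result {p a : ℕ} (hp : p.Prime) (ha : 0 < a) {K V : Type*} [Field K] [CharZero K]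
    [IsAlgClosed K] [AddCommGroup V] [Module K V] [Module.Finite K V] (S : SurfaceH2 p a K V) :
    -- (1) the multiplicities of pairwise non-conjugate eigenvalues which are not Tate eigenvalues
    -- add up to at most `a p_g`, and to at most `p_g` if `X` is ordinary
    (∀ g, S.Bound g → ∀ Z : Finset K, (∀ z ∈ Z, S.F.HasEigenvalue z ∧ ¬ IsTate p a z) →
      (∀ z ∈ Z, ∀ z' ∈ Z, minpoly ℤ z = minpoly ℤ z' → z = z') → ∑ z ∈ Z, S.mult z ≤ g) ∧
    -- (2) `p_g = 0`, or `p_g = 1` and (`q = p` or `X` ordinary): simple eigenvalues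
    (∀ g, S.Bound g → g ≤ 1 → ∀ α, ¬ IsTate p a α → S.mult α ≤ 1 ∧ S.SemisimpleAt α) ∧
    -- (3) bound two (e.g. `p_g = 2` and (`q = p` or `X` ordinary)) and two non-conjugate
    -- eigenvalues which are not Tate eigenvalues: simple eigenvalues
    (∀ g, S.Bound g → g ≤ 2 → (∃ β γ, S.F.HasEigenvalue β ∧ S.F.HasEigenvalue γ ∧
      ¬ IsTate p a β ∧ ¬ IsTate p a γ ∧ minpoly ℤ β ≠ minpoly ℤ γ) →
      ∀ α, ¬ IsTate p a α → S.mult α ≤ 1 ∧ S.SemisimpleAt α) ∧
    -- (4) local criteria at the Tate eigenvalues: at `α = ± q` (so at `α = q`: the order of the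
    -- pole of the zeta function at `s = 1` is at most `rk NS(X) + 2`), and at all of them
    (∀ α : K, α ^ 2 = ((p : K) ^ a) ^ 2 → S.mult α ≤ finrank K (S.NS α) + 2 →
      S.SemisimpleAt α) ∧
    (∀ α, IsTate p a α → S.mult α ≤ finrank K (S.NS α) + 1 → S.SemisimpleAt α) ∧
    (S.FewTate → ∀ α, IsTate p a α → S.SemisimpleAt α) ∧
    -- (5) full semisimplicity under (2) or (3) and a small defect at the Tate eigenvalues
    (∀ g, S.Bound g → (g ≤ 1 ∨ (g ≤ 2 ∧ ∃ β γ, S.F.HasEigenvalue β ∧ S.F.HasEigenvalue γ ∧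
      ¬ IsTate p a β ∧ ¬ IsTate p a γ ∧ minpoly ℤ β ≠ minpoly ℤ γ)) →
      (S.FewTate ∨ S.SmallDefect) → S.Semisimple) ∧
    -- (6) `b₂ ≤ ρ(X̄) + 2`: semisimple
    (finrank K V ≤ finrank K S.N + 2 → S.Semisimple) ∧
    -- (7) `b₂ ≤ ρ(X̄) + 3` and some eigenvalue is not Tate: semisimple
    (finrank K V ≤ finrank K S.N + 3 → (∃ α, S.F.HasEigenvalue α ∧ ¬ IsTate p a α) →
      S.Semisimple) ∧
    -- (8) `b₂ ≤ ρ(X̄) + 4`, some eigenvalue is not Tate, and the bound of (2) holds: semisimple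
    (finrank K V ≤ finrank K S.N + 4 → (∃ α, S.F.HasEigenvalue α ∧ ¬ IsTate p a α) →
      (∃ g, S.Bound g ∧ g ≤ 1) → S.Semisimple) := by
  classical
  have h1 : ∀ g, S.Bound g → ∀ Z : Finset K,
      (∀ z ∈ Z, S.F.HasEigenvalue z ∧ ¬ IsTate p a z) →
      (∀ z ∈ Z, ∀ z' ∈ Z, minpoly ℤ z = minpoly ℤ z' → z = z') → ∑ z ∈ Z, S.mult z ≤ g :=
    fun g hg Z hZ hd => S.sum_mult hp ha hg Z hZ hd
  have h2' : ∀ g, S.Bound g → g ≤ 1 → ∀ α, ¬ IsTate p a α → S.mult α ≤ 1 := by
    intro g hg hg1 α hα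
    by_cases h0 : S.mult α = 0
    · omega
    have he := S.eigenvalue_of_mult (α := α) (by omega)
    have := h1 g hg {α} (by simp [he, hα]) (by simp)
    rw [Finset.sum_singleton] at this
    omega
  have h3' : ∀ g, S.Bound g → g ≤ 2 → (∃ β γ, S.F.HasEigenvalue β ∧ S.F.HasEigenvalue γ ∧
      ¬ IsTate p a β ∧ ¬ IsTate p a γ ∧ minpoly ℤ β ≠ minpoly ℤ γ) →
      ∀ α, ¬ IsTate p a α → S.mult α ≤ 1 := by
    rintro g hg hg2 ⟨β, γ, hβ, hγ, hβT, hγT, hne⟩ α hα
    by_cases h0 : S.mult α = 0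
    · omega
    have he := S.eigenvalue_of_mult (α := α) (by omega)
    have key : ∀ δ, S.F.HasEigenvalue δ → ¬ IsTate p a δ → minpoly ℤ α ≠ minpoly ℤ δ →
        S.mult α ≤ 1 := by
      intro δ hδ hδT hαδ
      have hne' : α ≠ δ := fun h => hαδ (by rw [h])
      have h4 := h1 g hg {α, δ} (by
        intro z hz
        rcases Finset.mem_insert.1 hz with rfl | hz
        · exact ⟨he, hα⟩
        · rw [Finset.mem_singleton] at hz; subst hz; exact ⟨hδ, hδT⟩) (by
        intro z hz z' hz' h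
        simp only [Finset.mem_insert, Finset.mem_singleton] at hz hz'
        rcases hz with hz | hz
        · rcases hz' with hz' | hz'
          · rw [hz, hz']
          · rw [hz, hz'] at h; exact absurd h hαδ
        · rcases hz' with hz' | hz'
          · rw [hz, hz'] at h; exact absurd h.symm hαδ
          · rw [hz, hz'])
      rw [Finset.sum_pair hne'] at h4
      have := S.mult_pos hδ
      omega
    by_cases hαβ : minpoly ℤ α = minpoly ℤ β
    · exact key γ hγ hγT (by rw [hαβ]; exact hne)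
    · exact key β hβ hβT hαβ
  have h4 : S.FewTate → ∀ α, IsTate p a α → S.SemisimpleAt α :=
    fun hF α hα => S.ss_tate hp hF hα
  have h5 : S.SmallDefect → ∀ α, IsTate p a α → S.SemisimpleAt α := by
    intro hF α hα
    rcases hF α hα with h | ⟨h, h'⟩
    · exact S.ss_local hp hα h
    · exact S.ss_local_two hp h h'
  have hall' : (S.FewTate ∨ S.SmallDefect) → (∀ α, ¬ IsTate p a α → S.mult α ≤ 1) →
      S.Semisimple := by
    intro hF hm α
    by_cases hα : IsTate p a α
    · rcases hF with hF | hF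
      · exact h4 hF α hα
      · exact h5 hF α hα
    · exact S.ss_of_mult (hm α hα)
  have hall : S.FewTate → (∀ α, ¬ IsTate p a α → S.mult α ≤ 1) → S.Semisimple :=
    fun hF => hall' (Or.inl hF)
  refine ⟨h1, fun g hg hg1 α hα => ⟨h2' g hg hg1 α hα, S.ss_of_mult (h2' g hg hg1 α hα)⟩,
    fun g hg hg2 hex α hα => ⟨h3' g hg hg2 hex α hα, S.ss_of_mult (h3' g hg hg2 hex α hα)⟩,
    fun α h h' => S.ss_local_two hp h h', fun α h h' => S.ss_local hp h h', h4, ?_, ?_, ?_, ?_⟩
  · rintro g hg (hg1 | ⟨hg2, hex⟩) hF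
    · exact hall' hF (h2' g hg hg1)
    · exact hall' hF (h3' g hg hg2 hex)
  · intro hb
    apply hall
    · intro m hm
      exact (Submodule.finrank_le _).trans hb
    · intro α hα
      exact S.mult_le_of_dim (by omega) hα
  · rintro hb ⟨α, he, hα⟩
    apply hall
    · intro m hm
      have := S.dim_le he hα hm
      have := S.mult_pos he
      omega
    · intro β hβ
      exact S.mult_le_of_dim hb hβ
  · rintro hb ⟨α, he, hα⟩ ⟨g, hg, hg1⟩
    apply hall
    · intro m hm
      have := S.dim_le he hα hm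
      have := S.mult_pos he
      omega
    · exact h2' g hg hg1

end Pool.Agent.Results.MP_1fe969_ag.NewtonHodgeSemisimple
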