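import Pool.Agent.W623.Fr.Par

set_option autoImplicit false

open Module Polynomial

namespace Pool.Agent.Results.MP_1fe969_ag.SmallDefect

theorem pow_sim {E V : Type} [Field E] [AddCommGroup V] [Module E V] (B : LinearMap.BilinForm E V)
    (q : E) (F : End E V) (hF : ∀ x y, B (F x) (F y) = q ^ 2 * B x y) (m : ℕ) :
    ∀ x y, B ((F ^ m) x) ((F ^ m) y) = (q ^ m) ^ 2 * B x y := by
  induction m with
  | zero => intro x y; simp
  | succ m ih =>
    intro x y
    rw [pow_succ' F]
    change B (F ((F ^ m) x)) (F ((F ^ m) y)) = _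
    rw [hF, ih]
    ring

/-- `V` a finite-dimensional space with a nondegenerate symmetric form `B`, `F` a similitude of
multiplier `q²` (Frobenius on `H²` of a surface), `N` a subspace of the eigenspace of `F ^ m` for
`q ^ m` on which `B` is nondegenerate (the algebraic classes), `M` the multiplicity of `q ^ m` as an
eigenvalue of `F ^ m`.  Then `M` minus the dimension of the eigenspace is even, and it is zero or less
than `M - dim N`.  If `M ≤ dim N + 2` then the generalised eigenspace is the eigenspace, and `F` is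
semisimple as soon as its other eigenvalues are simple. -/
theorem result {E V : Type} [Field E] [CharZero E] [AddCommGroup V] [Module E V]
    [FiniteDimensional E V] (B : LinearMap.BilinForm E V) (hs : ∀ x y, B x y = B y x)
    (hnd : ∀ x, (∀ y, B x y = 0) → x = 0) (q : E) (hq : q ≠ 0) (F : End E V)
    (hF : ∀ x y, B (F x) (F y) = q ^ 2 * B x y) (m : ℕ) (N : Submodule E V)
    (hN : ∀ x ∈ N, (F ^ m) x = q ^ m • x) (hNn : ∀ x ∈ N, (∀ y ∈ N, B x y = 0) → x = 0) :
    (∃ r : ℕ, (F ^ m).charpoly.rootMultiplicity (q ^ m) =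
        finrank E (LinearMap.ker (F ^ m - q ^ m • (1 : End E V))) + r ∧ Even r ∧
        (r = 0 ∨ finrank E N + r < (F ^ m).charpoly.rootMultiplicity (q ^ m))) ∧
    ((F ^ m).charpoly.rootMultiplicity (q ^ m) ≤ finrank E N + 2 →
      (∀ x, (∃ k : ℕ, ((F ^ m - q ^ m • (1 : End E V)) ^ k) x = 0) → (F ^ m) x = q ^ m • x) ∧
      ∀ (k : ℕ) (P : E[X]), F.charpoly ∣ (X ^ m - C (q ^ m)) ^ k * P →
        Squarefree ((X ^ m - C (q ^ m)) * P) → F.IsSemisimple) := by
  have h2 : (2 : E) ≠ 0 := two_ne_zero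
  have hc : q ^ m ≠ 0 := pow_ne_zero _ hq
  have hG := pow_sim B q F hF m
  have hmul : finrank E ((F ^ m).maxGenEigenspace (q ^ m)) =
      (F ^ m).charpoly.rootMultiplicity (q ^ m) :=
    LinearMap.finrank_maxGenEigenspace_eq _ _
  have hker : LinearMap.ker (F ^ m - q ^ m • (1 : End E V)) = (F ^ m).eigenspace (q ^ m) := by
    ext x
    rw [Module.End.mem_eigenspace_iff, LinearMap.mem_ker]
    simp [sub_eq_zero]
  constructor
  · obtain ⟨r, h1, h3, h4⟩ := Pool.Agent.W623.Fr.main h2 B hs hnd hc (F ^ m) hG N hN hNn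
    refine ⟨r, ?_, h3, ?_⟩
    · rw [← hmul, hker, h1]
    · rw [← hmul]
      exact h4
  · intro hle
    rw [← hmul] at hle
    have hb := Pool.Agent.W623.Fr.base h2 B hs hnd hc (F ^ m) hG N hN hNn hle
    have hb2 : ∀ x, (∃ k : ℕ, ((F ^ m - q ^ m • (1 : End E V)) ^ k) x = 0) →
        (F ^ m) x = q ^ m • x := by
      intro x hx
      apply hb
      rw [Module.End.mem_maxGenEigenspace]
      exact hx
    refine ⟨hb2, fun k P hdvd hsq => ?_⟩
    refine Module.End.isSemisimple_of_squarefree_aeval_eq_zero hsq ?_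
    have hch : aeval F ((X ^ m - C (q ^ m)) ^ k * P) = 0 := by
      obtain ⟨Q, hQ⟩ := hdvd
      rw [hQ, map_mul, LinearMap.aeval_self_charpoly, zero_mul]
    have haev : aeval F (X ^ m - C (q ^ m) : E[X]) = F ^ m - q ^ m • (1 : End E V) := by
      rw [map_sub, map_pow, aeval_X, aeval_C, Algebra.algebraMap_eq_smul_one]
    ext x
    rw [map_mul, haev]
    change (F ^ m - q ^ m • (1 : End E V)) (aeval F P x) = 0
    have h5 : ((F ^ m - q ^ m • (1 : End E V)) ^ k) (aeval F P x) = 0 := by
      rw [map_mul, map_pow, haev] at hch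
      exact congrArg (fun f : End E V => f x) hch
    have h6 := hb2 _ ⟨k, h5⟩
    simp [h6]

end Pool.Agent.Results.MP_1fe969_ag.SmallDefect
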