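import Pool.Agent.W528.HS.Fin
import Pool.Agent.W715.HS.OC
import Pool.Agent.W273.HS.PJ
import Pool.Agent.W326.HS.EI
import Pool.Agent.W111.HS.EC
import Pool.Agent.W63.HS.TR
import Pool.Agent.W804.HS.RD

set_option autoImplicit false

namespace Pool.Agent.Results.MP_1fe969_ag.TateEigenvalueModP

open Polynomial Pool.Agent.W528.HS

/-- **Semisimplicity of Frobenius for the Tate eigenvalues of cyclic planes.**

Let `κ` be a finite field with `q` elements containing the `p ^ s`-th roots of unity, `C : G = 0` a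
smooth plane curve over `κ` whose degree is divisible by `p ^ s`, and `𝒳 : y ^ (p ^ s) = G` the
cyclic covering of the plane branched along `C`. Let `P` be the numerator of the zeta function of
`C`: `P = ∏_{x ∈ B} (1 - x T)`, the number of points of `C` is `1 + |L| - ∑_{x ∈ B} x ^ [L : κ]`, and
`P(1)` is the number of points of the Jacobian. The second cohomology of `𝒳` is the sum of that of
the plane and of the parts `W` belonging to the characters of order `p ^ s` with the functions
`F = G ^ j`, `0 < j < p ^ s`; for the Frobenius `Φ` on `W` the Grothendieck-Lefschetz formula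
gives `tr(Φ ^ [L : κ]) = projSum`.

Theorem: (1) the generalized eigenspaces of `Φ` for all the eigenvalues `q ζ`, `ζ ^ (p ^ b) = 1`,
together have dimension at most `1 + ` the multiplicity of the root `1` of `P` modulo `p`;
(2) if `p` does not divide `P(1)`, then `Φ` is semisimple on these generalized eigenspaces. -/
theorem result (p s : ℕ) (hp : p.Prime) (hs : 1 ≤ s)
    (κ : Type) [Field κ] [Fintype κ] (z : κ) (hz : IsPrimitiveRoot z (p ^ s))
    (F : MvPolynomial (Fin 3) κ) (E : Type) [Field E] [CharZero E] [IsAlgClosed E]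
    (μ : E) (hμ : IsPrimitiveRoot μ (p ^ s)) (P : ℤ[X]) (hP : P.coeff 0 = 1) (B : Multiset E)
    (hB : P.map (Int.castRingHom E) = (B.map fun x => 1 - C x * X).prod)
    (hC : ∀ (L : Type) [Field L] [Fintype L] [Algebra κ L],
      (projZero L (F.map (algebraMap κ L)) : E)
        = 1 + (Fintype.card L : E) - (B.map fun x => x ^ Module.finrank κ L).sum)
    (W : Type) [AddCommGroup W] [Module E W] [FiniteDimensional E W] (Φ : Module.End E W)
    (hΦ : ∀ (L : Type) [Field L] [Fintype L] [Algebra κ L],
      LinearMap.trace E W (Φ ^ Module.finrank κ L)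
        = projSum L E (p ^ s) (F.map (algebraMap κ L)) (algebraMap κ L z) μ) (b : ℕ) :
    ∑ ζ ∈ nthRootsFinset (p ^ b) (1 : E),
        Module.finrank E (Φ.maxGenEigenspace ((Fintype.card κ : E) * ζ))
      ≤ 1 + (P.map (Int.castRingHom (ZMod p))).rootMultiplicity 1 ∧
    (¬ (p : ℤ) ∣ P.eval 1 → ∀ ζ : E, ζ ^ p ^ b = 1 →
      Φ.maxGenEigenspace ((Fintype.card κ : E) * ζ) = Φ.eigenspace ((Fintype.card κ : E) * ζ)) := by
  have hmain : ∀ S : Multiset E, S ≤ Φ.charpoly.roots →
      (∀ x ∈ S, x ^ p ^ b = (Fintype.card κ : E) ^ p ^ b) →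
      S.card ≤ 1 + (P.map (Int.castRingHom (ZMod p))).rootMultiplicity 1 := by
    intro S hS hS2
    refine mult_q Pool.Agent.W715.HS.OC.main Pool.Agent.W273.HS.PJ.main
      Pool.Agent.W326.HS.EI.main Pool.Agent.W111.HS.EC.main Pool.Agent.W63.HS.TR.main
      Pool.Agent.W804.HS.RD.main hp hs κ hz (d := 1) F hμ P hP B hB ?_ Φ hΦ b S hS ?_
    · intro L _ _ _
      rw [hC L]
      simp [Finset.sum_range_succ]
    · intro x hx
      rw [hS2 x hx, pow_one]
  refine ⟨sum_dim Φ b (pow_pos hp.pos b) _ (by exact_mod_cast Fintype.card_ne_zero) _ hmain, ?_⟩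
  intro hdvd ζ hζ
  have hfact : Fact p.Prime := ⟨hp⟩
  have h0 : (P.map (Int.castRingHom (ZMod p))).rootMultiplicity 1 = 0 := by
    apply rootMultiplicity_eq_zero
    intro h
    apply hdvd
    rw [IsRoot.def, eval_map, ← map_one (Int.castRingHom (ZMod p)), eval₂_at_apply] at h
    exact (ZMod.intCast_zmod_eq_zero_iff_dvd _ p).mp (by simpa using h)
  rw [h0, add_zero] at hmain
  exact (eigen_q Φ b _ 1 hmain ζ hζ).2 rfl

end Pool.Agent.Results.MP_1fe969_ag.TateEigenvalueModP
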